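import Pool.Agent.L5helper98.ID.Defs

/-!
# TRA1: passage to the limit
-/

set_option autoImplicit false

open MeasureTheory ProbabilityTheory Filter Topology Set
open scoped ENNReal BoundedContinuousFunction

namespace Pool.Agent.L5helper50.ID

open Pool.Agent.L5helper98.ID

theorem pw {s A : ℝ} (hs : 0 ≤ s) (hA : 0 < A) {j : ℕ} (hj : j ≤ 4) :
    ENNReal.ofReal s ^ j ≤ ENNReal.ofReal (min s A) ^ j +
      ENNReal.ofReal (1 / A ^ (4 - j)) * ENNReal.ofReal s ^ 4 := by
  rcases le_total s A with h | h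
  · rw [min_eq_left h]; exact le_self_add
  · refine le_trans ?_ le_add_self
    rw [← ENNReal.ofReal_pow hs, ← ENNReal.ofReal_pow hs, ← ENNReal.ofReal_mul (by positivity)]
    apply ENNReal.ofReal_le_ofReal
    have h1 : s ^ 4 = s ^ j * s ^ (4 - j) := by rw [← pow_add]; congr 1; omega
    have h2 : A ^ (4 - j) ≤ s ^ (4 - j) := pow_le_pow_left₀ hA.le h _
    have h3 : 0 < A ^ (4 - j) := by positivity
    rw [one_div, inv_mul_eq_div, le_div_iff₀ h3, h1]
    exact mul_le_mul_of_nonneg_left h2 (by positivity)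

theorem TRA1_holds : St_TRA1 := by
  intro τ hτ Ω mΩ P S hP hSm hS0 hlim b1 b2 b3 b4 h1 h2 h3 h4 e1 e2 e3 e4
  have hpos : ∀ᶠ ε in 𝓝[>] (0 : ℝ), 0 < ε := by
    filter_upwards [self_mem_nhdsWithin] with ε hε using hε
  have key : ∀ (A : ℝ), 0 ≤ A → ∀ j : ℕ,
      Tendsto (fun ε => ∫⁻ o, ENNReal.ofReal (min (S ε o) A) ^ j ∂(P ε)) (𝓝[>] 0)
        (𝓝 (∫⁻ t, ENNReal.ofReal (min |t| A) ^ j ∂τ)) := by
    intro A hA j
    have hm0 : ∀ t : ℝ, 0 ≤ min |t| A := fun t => le_min (abs_nonneg t) hA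
    have hb : ∀ t : ℝ, ‖(min |t| A) ^ j‖ ≤ A ^ j := by
      intro t
      rw [Real.norm_eq_abs, abs_of_nonneg (pow_nonneg (hm0 t) j)]
      exact pow_le_pow_left₀ (hm0 t) (min_le_right _ _) j
    have hc : Continuous fun t : ℝ => (min |t| A) ^ j := by fun_prop
    set f : ℝ →ᵇ ℝ := BoundedContinuousFunction.ofNormedAddCommGroup
      (fun t : ℝ => (min |t| A) ^ j) hc (A ^ j) hb with hf
    have hfa : ∀ t, f t = (min |t| A) ^ j := fun t => rfl
    have h5 := ENNReal.tendsto_ofReal (hlim f)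
    have h6 : ENNReal.ofReal (∫ t, f t ∂τ) = ∫⁻ t, ENNReal.ofReal (min |t| A) ^ j ∂τ := by
      rw [ofReal_integral_eq_lintegral_ofReal (f.integrable τ)
        (Eventually.of_forall fun t => by
          simp only [Pi.zero_apply, hfa]; exact pow_nonneg (hm0 t) j)]
      apply lintegral_congr
      intro t
      rw [hfa, ENNReal.ofReal_pow (hm0 t)]
    rw [h6] at h5
    refine h5.congr' ?_
    filter_upwards [hpos] with ε hε
    haveI := hP ε hε
    have hint : Integrable (fun o => f (S ε o)) (P ε) := by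
      refine Integrable.of_bound
        ((f.continuous.measurable.comp_aemeasurable (hSm ε hε)).aestronglyMeasurable) (A ^ j) ?_
      exact Eventually.of_forall fun o => hb _
    rw [ofReal_integral_eq_lintegral_ofReal hint (Eventually.of_forall fun o => by
      simp only [Pi.zero_apply, hfa]; exact pow_nonneg (hm0 _) j)]
    apply lintegral_congr
    intro o
    rw [hfa, ENNReal.ofReal_pow (hm0 _), abs_of_nonneg (hS0 ε hε o)]
  have mono : ∀ j : ℕ, Tendsto (fun n : ℕ => ∫⁻ t, ENNReal.ofReal (min |t| n) ^ j ∂τ) atTop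
      (𝓝 (∫⁻ t, ENNReal.ofReal |t| ^ j ∂τ)) := by
    intro j
    apply lintegral_tendsto_of_tendsto_of_monotone
    · intro n
      apply Measurable.aemeasurable
      exact (ENNReal.measurable_ofReal.comp
        (measurable_norm.min measurable_const)).pow_const j
    · refine Eventually.of_forall fun t => ?_
      intro n m hnm
      have : min |t| (n : ℝ) ≤ min |t| (m : ℝ) := min_le_min_left _ (by exact_mod_cast hnm)
      exact pow_le_pow_left₀ zero_le (ENNReal.ofReal_le_ofReal this) j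
    · refine Eventually.of_forall fun t => ?_
      apply tendsto_const_nhds.congr'
      obtain ⟨N, hN⟩ := exists_nat_ge |t|
      filter_upwards [eventually_ge_atTop N] with n hn
      have : |t| ≤ n := hN.trans (by exact_mod_cast hn)
      rw [min_eq_left this]
  have upper : ∀ (j : ℕ) (b : ℝ),
      (∀ᶠ ε in 𝓝[>] (0 : ℝ), ∫⁻ o, ENNReal.ofReal (S ε o) ^ j ∂(P ε) ≤ ENNReal.ofReal b) →
      ∫⁻ t, ENNReal.ofReal |t| ^ j ∂τ ≤ ENNReal.ofReal b := by
    intro j b hb
    refine le_of_tendsto' (mono j) fun n => ?_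
    refine le_of_tendsto (key n (Nat.cast_nonneg n) j) ?_
    filter_upwards [hb] with ε hε
    refine le_trans (lintegral_mono fun o => ?_) hε
    exact pow_le_pow_left₀ zero_le (ENNReal.ofReal_le_ofReal (min_le_left _ _)) j
  have lower : ∀ (j : ℕ), j ≤ 3 → ∀ b : ℝ,
      (∀ᶠ ε in 𝓝[>] (0 : ℝ), ENNReal.ofReal b ≤ ∫⁻ o, ENNReal.ofReal (S ε o) ^ j ∂(P ε)) →
      ENNReal.ofReal b ≤ ∫⁻ t, ENNReal.ofReal |t| ^ j ∂τ := by
    intro j hj b hb
    have hn : ∀ n : ℕ, 1 ≤ n → ENNReal.ofReal b ≤ ∫⁻ t, ENNReal.ofReal |t| ^ j ∂τ +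
        ENNReal.ofReal (1 / (n : ℝ) ^ (4 - j)) * ENNReal.ofReal b4 := by
      intro n hn
      have hn0 : (0 : ℝ) < n := by exact_mod_cast hn
      have hle : ∫⁻ t, ENNReal.ofReal (min |t| n) ^ j ∂τ ≤ ∫⁻ t, ENNReal.ofReal |t| ^ j ∂τ :=
        lintegral_mono fun t =>
          pow_le_pow_left₀ zero_le (ENNReal.ofReal_le_ofReal (min_le_left _ _)) j
      refine le_trans ?_ (add_le_add_left hle _)
      refine ge_of_tendsto ((key n hn0.le j).add_const _) ?_
      filter_upwards [hb, e4, hpos] with ε hε hε4 hε0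
      have hmeas : AEMeasurable (fun o => ENNReal.ofReal (min (S ε o) n) ^ j) (P ε) :=
        (ENNReal.measurable_ofReal.comp_aemeasurable
          ((hSm ε hε0).min aemeasurable_const)).pow_const j
      calc ENNReal.ofReal b ≤ ∫⁻ o, ENNReal.ofReal (S ε o) ^ j ∂(P ε) := hε
        _ ≤ ∫⁻ o, (ENNReal.ofReal (min (S ε o) n) ^ j +
            ENNReal.ofReal (1 / (n : ℝ) ^ (4 - j)) * ENNReal.ofReal (S ε o) ^ 4) ∂(P ε) :=
          lintegral_mono fun o => pw (hS0 ε hε0 o) hn0 (by omega)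
        _ = ∫⁻ o, ENNReal.ofReal (min (S ε o) n) ^ j ∂(P ε) +
            ENNReal.ofReal (1 / (n : ℝ) ^ (4 - j)) * ∫⁻ o, ENNReal.ofReal (S ε o) ^ 4 ∂(P ε) := by
          rw [lintegral_add_left' hmeas, lintegral_const_mul' _ _ ENNReal.ofReal_ne_top]
        _ ≤ _ := by gcongr
    have hlim0 : Tendsto (fun n : ℕ => ∫⁻ t, ENNReal.ofReal |t| ^ j ∂τ +
        ENNReal.ofReal (1 / (n : ℝ) ^ (4 - j)) * ENNReal.ofReal b4) atTop
        (𝓝 (∫⁻ t, ENNReal.ofReal |t| ^ j ∂τ + 0 * ENNReal.ofReal b4)) := by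
      apply Tendsto.const_add
      apply ENNReal.Tendsto.mul_const _ (Or.inr ENNReal.ofReal_ne_top)
      have h7 : Tendsto (fun n : ℕ => 1 / (n : ℝ) ^ (4 - j)) atTop (𝓝 0) := by
        have h8 : Tendsto (fun n : ℕ => ((n : ℝ) ^ (4 - j))) atTop atTop :=
          (tendsto_pow_atTop (by omega)).comp tendsto_natCast_atTop_atTop
        exact tendsto_const_nhds.div_atTop h8
      have h9 := ENNReal.tendsto_ofReal h7
      rw [ENNReal.ofReal_zero] at h9
      exact h9
    rw [zero_mul, add_zero] at hlim0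
    refine ge_of_tendsto hlim0 ?_
    filter_upwards [eventually_ge_atTop 1] with n hn1 using hn n hn1
  refine ⟨?_, upper 2 b2 e2, lower 3 le_rfl b3 e3, upper 4 b4 e4⟩
  have h10 := lower 1 (by norm_num) b1 (by simpa only [pow_one] using e1)
  simpa only [pow_one] using h10

end Pool.Agent.L5helper50.ID
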